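import Pool.Agent.Helper7.AG.Stmt

/-!
# Project BN, block B11: from the list of the automorphisms to the structure of `Aut` and `Out`
-/

set_option autoImplicit false

namespace Pool.Agent.Helper34.BN

open Pool.Agent.Helper7.AG (Inn Out SqOne Splits Artin)

/-- every automorphism of `G` is in exactly one way of the form `conj x`, `conj x * ε`,
`conj x * τ` or `conj x * (ε * τ)` with `x` in `G` -/
def UniqueForm2 (G : Type*) [Group G] (ε τ : MulAut G) : Prop :=
  Function.Bijective (fun p : G × Bool × Bool =>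
    MulAut.conj p.1 * ((if p.2.1 = true then ε else 1) * (if p.2.2 = true then τ else 1)))

/-- there is an isomorphism of `Out G` with the group `{1, -1} × {1, -1}` which maps the class of
`ε` to `(-1, 1)` and the class of `τ` to `(1, -1)` -/
def OutKlein (G : Type*) [Group G] (ε τ : MulAut G) : Prop :=
  ∃ e : Out G ≃* ℤˣ × ℤˣ, e (QuotientGroup.mk ε) = (-1, 1) ∧ e (QuotientGroup.mk τ) = (1, -1)

/-- `τ` exchanges the generators `0` and `1` and fixes all other generators -/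
def SwapsLeaves {n : ℕ} (M : CoxeterMatrix (Fin (n + 1))) (τ : MulAut (Artin M)) : Prop :=
  τ (PresentedGroup.of 0) = PresentedGroup.of 1 ∧ τ (PresentedGroup.of 1) = PresentedGroup.of 0 ∧
    ∀ s : Fin (n + 1), 2 ≤ s.val → τ (PresentedGroup.of s) = PresentedGroup.of s

/-- the hypotheses on two automorphisms -/
structure KH (Γ : Type*) [Group Γ] (ε τ : MulAut Γ) : Prop where
  ee : ε * ε = 1
  tt : τ * τ = 1
  et : ε * τ = τ * ε
  center : Subgroup.center Γ = ⊥
  ne : ∀ x : Γ, ε ≠ MulAut.conj x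
  nt : ∀ x : Γ, τ ≠ MulAut.conj x
  net : ∀ x : Γ, ε * τ ≠ MulAut.conj x
  all : ∀ φ : MulAut Γ, ∃ x : Γ, φ = MulAut.conj x ∨ φ = MulAut.conj x * ε ∨
    φ = MulAut.conj x * τ ∨ φ = MulAut.conj x * (ε * τ)

section
variable {Γ : Type*} [Group Γ] {ε τ : MulAut Γ}

lemma KH.conj_inj (h : KH Γ ε τ) : Function.Injective (MulAut.conj : Γ →* MulAut Γ) := by
  rw [injective_iff_map_eq_one]
  intro x hx
  have : x ∈ Subgroup.center Γ := by
    rw [Subgroup.mem_center_iff]
    intro y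
    have h := congrArg (fun φ : MulAut Γ => φ y) hx
    simp only [MulAut.conj_apply, MulAut.one_apply] at h
    exact (mul_inv_eq_iff_eq_mul.mp h).symm
  rw [h.center] at this
  exact Subgroup.mem_bot.mp this

/-- the action of `ℤˣ × ℤˣ` -/
def KH.theta (h : KH Γ ε τ) : ℤˣ × ℤˣ →* MulAut Γ where
  toFun p := (if p.1 = 1 then 1 else ε) * (if p.2 = 1 then 1 else τ)
  map_one' := by simp
  map_mul' := by
    rintro ⟨u, v⟩ ⟨u', v'⟩
    have h1 : τ * ε = ε * τ := h.et.symm
    have h2 : ε * (ε * τ) = τ := by rw [← mul_assoc, h.ee, one_mul]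
    have h3 : τ * (ε * τ) = ε := by rw [← mul_assoc, h1, mul_assoc, h.tt, mul_one]
    have h4 : ε * τ * (ε * τ) = 1 := by rw [mul_assoc, h3, h.ee]
    have h5 : ε * τ * ε = τ := by rw [mul_assoc, h1, h2]
    have h6 : ε * τ * τ = ε := by rw [mul_assoc, h.tt, mul_one]
    have h7 := h.ee
    have h8 := h.tt
    rcases Int.units_eq_one_or u with rfl | rfl <;> rcases Int.units_eq_one_or v with rfl | rfl <;>
      rcases Int.units_eq_one_or u' with rfl | rfl <;>
      rcases Int.units_eq_one_or v' with rfl | rfl <;>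
      simp [h7, h8, h1, h2, h3, h4, h5, h6]

/-- the semidirect product maps to the automorphism group -/
def KH.toAut (h : KH Γ ε τ) : Γ ⋊[h.theta] (ℤˣ × ℤˣ) →* MulAut Γ :=
  SemidirectProduct.lift MulAut.conj h.theta (by
    intro u
    ext x y
    simp [MulAut.mul_apply])

lemma KH.toAut_apply (h : KH Γ ε τ) (p : Γ ⋊[h.theta] (ℤˣ × ℤˣ)) :
    h.toAut p = MulAut.conj p.left * h.theta p.right := rfl

lemma KH.theta_ne_conj (h : KH Γ ε τ) {u : ℤˣ × ℤˣ} (hu : u ≠ 1) (x : Γ) :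
    h.theta u ≠ MulAut.conj x := by
  obtain ⟨a, b⟩ := u
  rcases Int.units_eq_one_or a with rfl | rfl <;> rcases Int.units_eq_one_or b with rfl | rfl
  · exact absurd rfl hu
  · simpa [KH.theta] using h.nt x
  · simpa [KH.theta] using h.ne x
  · simpa [KH.theta] using h.net x

lemma KH.toAut_bij (h : KH Γ ε τ) : Function.Bijective h.toAut := by
  constructor
  · rw [injective_iff_map_eq_one]
    intro p hp
    rw [h.toAut_apply] at hp
    by_cases h1 : p.right = 1
    · rw [h1, map_one, mul_one] at hp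
      ext1
      · exact h.conj_inj (by rw [hp, SemidirectProduct.one_left, map_one])
      · exact h1
    · exfalso
      refine h.theta_ne_conj h1 p.left⁻¹ ?_
      rw [map_inv]
      exact eq_inv_of_mul_eq_one_right hp
  · intro φ
    obtain ⟨x, h1 | h1 | h1 | h1⟩ := h.all φ
    · exact ⟨⟨x, 1⟩, by rw [h.toAut_apply, h1]; simp⟩
    · exact ⟨⟨x, (-1, 1)⟩, by rw [h.toAut_apply, h1]; simp [KH.theta]⟩
    · exact ⟨⟨x, (1, -1)⟩, by rw [h.toAut_apply, h1]; simp [KH.theta]⟩
    · exact ⟨⟨x, (-1, -1)⟩, by rw [h.toAut_apply, h1]; simp [KH.theta]⟩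

/-- the automorphism group as a semidirect product -/
noncomputable def KH.autEquiv (h : KH Γ ε τ) : Γ ⋊[h.theta] (ℤˣ × ℤˣ) ≃* MulAut Γ :=
  MulEquiv.ofBijective h.toAut h.toAut_bij

/-- the class of an automorphism -/
noncomputable def KH.sgn (h : KH Γ ε τ) : MulAut Γ →* ℤˣ × ℤˣ :=
  SemidirectProduct.rightHom.comp h.autEquiv.symm.toMonoidHom

lemma KH.sgn_toAut (h : KH Γ ε τ) (p : Γ ⋊[h.theta] (ℤˣ × ℤˣ)) :
    h.sgn (h.toAut p) = p.right := by
  have : h.autEquiv.symm (h.toAut p) = p := h.autEquiv.symm_apply_apply p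
  change SemidirectProduct.rightHom (h.autEquiv.symm (h.toAut p)) = _
  rw [this]; rfl

lemma KH.sgn_ker (h : KH Γ ε τ) : h.sgn.ker = Inn Γ := by
  ext φ
  rw [MonoidHom.mem_ker]
  obtain ⟨p, rfl⟩ := h.toAut_bij.2 φ
  rw [h.sgn_toAut]
  constructor
  · intro h1
    exact ⟨p.left, by rw [h.toAut_apply, h1, map_one, mul_one]⟩
  · rintro ⟨x, hx⟩
    have : h.toAut p = h.toAut ⟨x, 1⟩ := by rw [← hx, h.toAut_apply]; simp
    rw [h.toAut_bij.1 this]

lemma KH.sgn_surj (h : KH Γ ε τ) : Function.Surjective h.sgn :=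
  fun u => ⟨h.toAut ⟨1, u⟩, h.sgn_toAut _⟩

/-- the outer automorphism group -/
noncomputable def KH.outEquiv (h : KH Γ ε τ) : Out Γ ≃* ℤˣ × ℤˣ :=
  (QuotientGroup.quotientMulEquivOfEq h.sgn_ker.symm).trans
    (QuotientGroup.quotientKerEquivOfSurjective h.sgn h.sgn_surj)

lemma KH.outEquiv_mk (h : KH Γ ε τ) (φ : MulAut Γ) :
    h.outEquiv (QuotientGroup.mk φ) = h.sgn φ := rfl

lemma KH.outEquiv_eps (h : KH Γ ε τ) : h.outEquiv (QuotientGroup.mk ε) = (-1, 1) := by
  have h1 : h.toAut ⟨1, (-1, 1)⟩ = ε := by rw [h.toAut_apply]; simp [KH.theta]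
  have h2 := congrArg h.sgn h1
  rw [h.sgn_toAut] at h2
  exact h2.symm

lemma KH.outEquiv_tau (h : KH Γ ε τ) : h.outEquiv (QuotientGroup.mk τ) = (1, -1) := by
  have h1 : h.toAut ⟨1, (1, -1)⟩ = τ := by rw [h.toAut_apply]; simp [KH.theta]
  have h2 := congrArg h.sgn h1
  rw [h.sgn_toAut] at h2
  exact h2.symm

theorem KH.outKlein (h : KH Γ ε τ) : OutKlein Γ ε τ := ⟨h.outEquiv, h.outEquiv_eps, h.outEquiv_tau⟩

theorem KH.splits (h : KH Γ ε τ) : Splits Γ := by
  refine ⟨h.theta.comp h.outEquiv.toMonoidHom, fun o => ?_⟩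
  apply h.outEquiv.injective
  rw [h.outEquiv_mk]
  have : (h.theta.comp h.outEquiv.toMonoidHom) o = h.toAut ⟨1, h.outEquiv o⟩ := by
    rw [h.toAut_apply]; simp
  rw [this, h.sgn_toAut]

theorem KH.uniqueForm2 (h : KH Γ ε τ) : UniqueForm2 Γ ε τ := by
  have key : ∀ p : Γ × Bool × Bool,
      MulAut.conj p.1 * ((if p.2.1 = true then ε else 1) * (if p.2.2 = true then τ else 1)) =
        h.toAut ⟨p.1, (if p.2.1 = true then -1 else 1, if p.2.2 = true then -1 else 1)⟩ := by
    rintro ⟨x, u, v⟩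
    rw [h.toAut_apply]
    cases u <;> cases v <;> simp [KH.theta]
  constructor
  · rintro ⟨x, u, v⟩ ⟨x', u', v'⟩ h1
    have h1 := h.toAut_bij.1 ((key (x, u, v)).symm.trans (h1.trans (key (x', u', v'))))
    have h2 := congrArg SemidirectProduct.left h1
    have h3 := congrArg SemidirectProduct.right h1
    cases u <;> cases v <;> cases u' <;> cases v' <;> simp_all
  · intro φ
    obtain ⟨x, h1 | h1 | h1 | h1⟩ := h.all φ
    · exact ⟨(x, false, false), by simp [h1]⟩
    · exact ⟨(x, true, false), by simp [h1]⟩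
    · exact ⟨(x, false, true), by simp [h1]⟩
    · exact ⟨(x, true, true), by simp [h1]⟩

end

end Pool.Agent.Helper34.BN
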