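import Pool.Agent.Helper38.BN.IntD
import Pool.Agent.Helper38.BT.Out
import Pool.Agent.Helper34.BN.Klein

/-!
# Project BN, block B11: the structure of `Aut` and `Out` of the Artin groups of type `B̃_n`
-/

set_option autoImplicit false

namespace Pool.Agent.Helper34.BN

open Pool.Agent.Helper7.AG (Inn Out SqOne Splits Artin InvertsGens)
open Pool.Agent.Helper38.BN

section
variable {m : ℕ}

lemma eps_eps : eps m * eps m = 1 := by
  ext x
  exact epsHom_epsHom x

lemma tauHom_epsHom (x : A m) : tauHom m (epsHom m x) = epsHom m (tauHom m x) := by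
  have : (tauHom m).comp (epsHom m) = (epsHom m).comp (tauHom m) := by
    apply homA_ext
    · intro j hj
      rcases Nat.lt_or_ge j (m + 1) with h | h
      · rw [MonoidHom.comp_apply, MonoidHom.comp_apply, epsHom_a hj, map_inv, tauHom_a h,
          epsHom_a hj]
      · have e : j = m + 1 := by omega
        subst e
        rw [MonoidHom.comp_apply, MonoidHom.comp_apply, epsHom_a hj, map_inv, tauHom_a',
          epsHom_b]
    · rw [MonoidHom.comp_apply, MonoidHom.comp_apply, epsHom_b, map_inv, tauHom_b,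
        epsHom_a (by omega)]
    · rw [MonoidHom.comp_apply, MonoidHom.comp_apply, epsHom_d, map_inv, tauHom_d, epsHom_d]
  exact DFunLike.congr_fun this x

lemma eps_tau : eps m * tau m = tau m * eps m := by
  ext x
  exact (tauHom_epsHom x).symm

lemma ab_d : ab m dA = Multiplicative.ofAdd ((0, 1) : ℤ × ℤ) := liftA_d _

lemma ab_conj (x y : A m) : ab m (MulAut.conj x y) = ab m y := by
  rw [MulAut.conj_apply, map_mul, map_mul, map_inv, mul_right_comm, mul_inv_cancel, one_mul]

lemma eps_not_inner (x : A m) : eps m ≠ MulAut.conj x := by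
  intro h
  have h1 := ab_conj x dA
  rw [← h] at h1
  change ab m (epsHom m dA) = _ at h1
  rw [epsHom_d, map_inv, ab_d] at h1
  have h2 := congrArg (fun z => (Multiplicative.toAdd z).2) h1
  simp at h2

lemma epstau_not_inner (x : A m) : eps m * tau m ≠ MulAut.conj x := by
  intro h
  have h1 := ab_conj x dA
  rw [← h] at h1
  change ab m (epsHom m (tauHom m dA)) = _ at h1
  rw [tauHom_d, epsHom_d, map_inv, ab_d] at h1
  have h2 := congrArg (fun z => (Multiplicative.toAdd z).2) h1
  simp at h2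

/-- the element `ζ` is central in the subgroup of type `B` -/
lemma inc_zeA (h : HB (m + 2)) : inc m h * zeA m * (inc m h)⁻¹ = zeA m := by
  rw [← inc_zeta, ← map_mul, zeH_comm, map_mul, mul_inv_cancel_right]

/-- the conjugates of `ζ` in `A` are conjugates in `N` -/
lemma conj_zeA (x : A m) : ∃ n : N (m + 2), x * zeA m * x⁻¹ = nA m (n * rN m * n⁻¹) := by
  obtain ⟨n, h, rfl⟩ := A_decomp x
  refine ⟨n, ?_⟩
  have h1 : nA m n * inc m h * zeA m * (nA m n * inc m h)⁻¹ =
      nA m n * (inc m h * zeA m * (inc m h)⁻¹) * (nA m n)⁻¹ := by group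
  rw [h1, inc_zeA, map_mul, map_mul, map_inv, nA_r]

lemma tau_not_inner (x : A m) : tau m ≠ MulAut.conj x := by
  intro h
  have h1 : x * zeA m * x⁻¹ = tau m (zeA m) := by rw [h]; rfl
  obtain ⟨n, hn⟩ := conj_zeA x
  have hp : par (m + 2) (xG (m + 2) * (rN m).1 * xG (m + 2)) = 1 := by
    have h2 : par (m + 2) (rN m).1 = 1 := (rN m).2
    rw [map_mul, map_mul, h2]
    unfold par
    rw [liftG_x _ _ _ (by omega)]
    simp
  have h2 : tau m (nA m (rN m)) = nA m ⟨xG (m + 2) * (rN m).1 * xG (m + 2), hp⟩ := tau_nA rfl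
  rw [nA_r, ← h1, hn] at h2
  have h3 := congrArg Subtype.val (nA_inj h2)
  change n.1 * rG (m + 2) * n.1⁻¹ = xG (m + 2) * rG (m + 2) * xG (m + 2) at h3
  have h4 : (n.1⁻¹ * xG (m + 2)) * rG (m + 2) ^ 1 = rG (m + 2) ^ 1 * (n.1⁻¹ * xG (m + 2)) := by
    rw [pow_one]
    have h5 : xG (m + 2) * rG (m + 2) = n.1 * rG (m + 2) * n.1⁻¹ * xG (m + 2) := by
      rw [h3, mul_assoc _ (xG (m + 2)) (xG (m + 2)), xG_sq, mul_one]
    rw [mul_assoc, h5]; group
  have h6 := cent_r (k := m + 2) (by omega) one_pos h4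
  obtain ⟨z, hz⟩ := Subgroup.mem_zpowers_iff.mp h6
  have h7 := congrArg (par (m + 2)) hz
  have h8 : par (m + 2) (rG (m + 2)) = 1 := (rN m).2
  have h9 : par (m + 2) n.1 = 1 := n.2
  rw [map_zpow, h8, one_zpow, map_mul, map_inv, h9] at h7
  unfold par at h7
  rw [liftG_x _ _ _ (by omega)] at h7
  simp at h7

/-- the center of `A m` is trivial -/
theorem center_eq_bot (m : ℕ) : Subgroup.center (A m) = ⊥ := by
  rw [eq_bot_iff]
  intro x hx
  rw [Subgroup.mem_center_iff] at hx
  obtain ⟨y, rfl⟩ := cent_zeta (hx (zeA m)).symm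
  -- `y` is central in `HB`
  have hy : ∀ h : HB (m + 2), h * y = y * h := by
    intro h
    apply inc_inj (m := m)
    rw [map_mul, map_mul]
    exact hx _
  have h1 : Chi (m + 2) y = 1 := by
    ext1 z
    have h2 : y * zH (m + 2) z * y⁻¹ = zH (m + 2) z := by
      rw [← hy, mul_inv_cancel_right]
    rw [zH_conj] at h2
    have h3 := congrArg (Chi (m + 2)) h2
    rw [chi_zH, chi_zH] at h3
    have h4 : (Chi (m + 2) y z) * z⁻¹ = 1 := by
      apply F_center (k := m + 1)
      intro w
      have h5 := congrArg (fun f : MulAut (F (m + 2)) => f (z⁻¹ * w * z)) h3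
      simp only [MulAut.conj_apply] at h5
      have h6 : z * (z⁻¹ * w * z) * z⁻¹ = w := by group
      rw [h6] at h5
      generalize Chi (m + 2) y z = g at h5 ⊢
      calc g * z⁻¹ * w = g * (z⁻¹ * w * z) * g⁻¹ * (g * z⁻¹) := by group
        _ = w * (g * z⁻¹) := by rw [h5]
    rw [MulAut.one_apply]
    exact mul_inv_eq_one.mp h4
  obtain ⟨e, he⟩ := Subgroup.mem_zpowers_iff.mp (faithful h1)
  have h2 : inc m y = nA m (rN m ^ e) := by
    rw [← he, map_zpow, inc_zeta, map_zpow, nA_r]
  -- `r ^ e` commutes with `u`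
  have h3 : uN m * rN m ^ e = rN m ^ e * uN m := by
    apply nA_inj
    rw [map_mul, map_mul, ← h2]
    exact hx _
  have h4 : (uN m).1 * rG (m + 2) ^ e = rG (m + 2) ^ e * (uN m).1 := by
    have h5 := congrArg Subtype.val h3
    simp only [Subgroup.coe_mul, Subgroup.coe_zpow] at h5
    exact h5
  by_cases h0 : e = 0
  · rw [h2, h0, zpow_zero, map_one]
    exact Subgroup.mem_bot.mpr rfl
  · exfalso
    have h5 : (uN m).1 * rG (m + 2) ^ e.natAbs = rG (m + 2) ^ e.natAbs * (uN m).1 := by
      rcases Int.natAbs_eq e with h6 | h6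
      · rw [← zpow_natCast, ← h6]; exact h4
      · have h7 : rG (m + 2) ^ e.natAbs = (rG (m + 2) ^ e)⁻¹ := by
          conv_rhs => rw [h6]
          rw [zpow_neg, inv_inv, zpow_natCast]
        rw [h7]
        have h8 : Commute (uN m).1 (rG (m + 2) ^ e) := h4
        exact h8.inv_right
    have h6 := cent_r (k := m + 2) (by omega) (Int.natAbs_pos.mpr h0) h5
    obtain ⟨z, hz⟩ := Subgroup.mem_zpowers_iff.mp h6
    -- the exponent of `y`
    have h7 := congrArg (liftG (k := m + 2) (fun _ => (1 : Multiplicative ℤ))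
      (fun _ _ => one_mul 1) (Multiplicative.ofAdd 1)) hz
    change _ = liftG _ _ _ (xG (m + 2) * xG (m + 1)) at h7
    have h8 : ∀ j, j ≤ m + 2 → liftG (k := m + 2) (fun _ => (1 : Multiplicative ℤ))
        (fun _ _ => one_mul 1) (Multiplicative.ofAdd 1) (xw j) = 1 := by
      intro j
      induction j with
      | zero => intro _; exact liftG_x _ _ _ (by omega)
      | succ j ih =>
        intro hj
        change liftG _ _ _ (xw j * xG (j + 1)) = 1
        rw [map_mul, ih (by omega), liftG_x _ _ _ hj, one_mul]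
    rw [map_zpow, rG, map_mul, liftG_y, h8 _ le_rfl, mul_one, map_mul, liftG_x _ _ _ (by omega),
      liftG_x _ _ _ (by omega), one_mul, ← ofAdd_zsmul] at h7
    have h9 : z = 0 := by
      have := congrArg Multiplicative.toAdd h7
      simpa using this
    rw [h9, zpow_zero] at hz
    have h10 := congrArg (liftG (k := m + 2) (fun i => if i = m + 2 then (-1 : ℤˣ) else 1)
      (fun i _ => by split_ifs <;> simp) 1) hz
    change _ = liftG _ _ _ (xG (m + 2) * xG (m + 1)) at h10
    rw [map_one, map_mul, liftG_x _ _ _ (by omega), liftG_x _ _ _ (by omega), if_pos rfl,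
      if_neg (by omega), mul_one] at h10
    exact absurd h10 (by decide)

/-- the structure theorem for `n = m + 3 ≥ 4` -/
theorem kh (hm : 1 ≤ m) : KH (A m) (eps m) (tau m) where
  ee := eps_eps
  tt := tau_tau
  et := eps_tau
  center := center_eq_bot m
  ne := eps_not_inner
  nt := tau_not_inner
  net := epstau_not_inner
  all φ := aut_A hm φ

theorem invertsGens_eps (m : ℕ) : InvertsGens (Bt (m + 3)) (eps m) := by
  intro s
  change epsHom m (PresentedGroup.of s : A m) = (PresentedGroup.of s : A m)⁻¹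
  rcases gen_cases (m := m) s with h | h | ⟨j, hj, h⟩
  · rw [h, epsHom_b]
  · rw [h, epsHom_d]
  · rw [h, epsHom_a hj]

theorem swapsLeaves_tau (m : ℕ) : SwapsLeaves (Bt (m + 3)) (tau m) := by
  have e0 : (PresentedGroup.of 0 : A m) = bA := rfl
  have e1 : (PresentedGroup.of 1 : A m) = aA (m + 1) := by
    rw [aA_of (by omega)]
    congr 1
    apply Fin.ext
    simp
  refine ⟨?_, ?_, ?_⟩
  · rw [e0, e1]; exact tauHom_b
  · rw [e0, e1]; exact tauHom_a'
  · rintro ⟨i, hi⟩ h2
    change 2 ≤ i at h2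
    change tauHom m (PresentedGroup.of (⟨i, hi⟩ : Fin (m + 3 + 1)) : A m) =
      (PresentedGroup.of (⟨i, hi⟩ : Fin (m + 3 + 1)) : A m)
    rcases Nat.lt_or_ge i (m + 3) with h3 | h3
    · have e2 : (PresentedGroup.of (⟨i, hi⟩ : Fin (m + 3 + 1)) : A m) = aA (m + 2 - i) := by
        rw [aA_of (by omega)]
        congr 1
        apply Fin.ext
        simp only
        omega
      rw [e2]
      exact tauHom_a (by omega)
    · have e2 : (PresentedGroup.of (⟨i, hi⟩ : Fin (m + 3 + 1)) : A m) = dA := by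
        unfold dA
        congr 1
        apply Fin.ext
        simp only
        omega
      rw [e2]
      exact tauHom_d

end

/-- the statement for one Coxeter matrix -/
def Stmt {n : ℕ} (M : CoxeterMatrix (Fin (n + 1))) : Prop :=
  ∃ ε τ : MulAut (Artin M), InvertsGens M ε ∧ SwapsLeaves M τ ∧ SqOne (Artin M) ε ∧
    SqOne (Artin M) τ ∧ ε * τ = τ * ε ∧ UniqueForm2 (Artin M) ε τ ∧
    OutKlein (Artin M) ε τ ∧ Splits (Artin M)

lemma Bt_three : Bt 3 = Pool.Agent.Helper38.BT.B3t := by
  have h : (Bt 3).M = Pool.Agent.Helper38.BT.B3t.M := by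
    ext i j
    fin_cases i <;> fin_cases j <;> rfl
  cases hB : Bt 3 with
  | mk M1 a1 b1 c1 =>
    cases hC : Pool.Agent.Helper38.BT.B3t with
    | mk M2 a2 b2 c2 =>
      rw [hB, hC] at h
      simp only at h
      subst h
      rfl

theorem stmt_B3t : Stmt Pool.Agent.Helper38.BT.B3t := by
  have h := Pool.Agent.Helper38.BT.swapsLeaves_tau
  refine ⟨Pool.Agent.Helper38.BT.eps, Pool.Agent.Helper38.BT.tau,
    Pool.Agent.Helper38.BT.invertsGens_eps, ⟨h.1, h.2.1, ?_⟩, Pool.Agent.Helper38.BT.eps_eps,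
    Pool.Agent.Helper38.BT.tau_tau, Pool.Agent.Helper38.BT.eps_tau,
    Pool.Agent.Helper38.BT.uniqueForm2, Pool.Agent.Helper38.BT.outKlein,
    Pool.Agent.Helper38.BT.splits_GB⟩
  intro s hs
  fin_cases s
  · simp at hs
  · simp at hs
  · exact h.2.2.1
  · exact h.2.2.2

/-- the automorphism groups of the Artin groups of type `B̃_n`, `n ≥ 3` -/
theorem main (n : ℕ) (hn : 3 ≤ n) : Stmt (Bt n) := by
  obtain ⟨m, rfl⟩ : ∃ m, n = m + 3 := ⟨n - 3, by omega⟩
  rcases Nat.eq_zero_or_pos m with rfl | hm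
  · rw [show (0 + 3) = 3 from rfl, Bt_three]
    exact stmt_B3t
  · have h := kh hm
    exact ⟨eps m, tau m, invertsGens_eps m, swapsLeaves_tau m, h.ee, h.tt, h.et, h.uniqueForm2,
      h.outKlein, h.splits⟩

end Pool.Agent.Helper34.BN
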